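import Pool.Agent.Helper86.AP.Goals
import Pool.Agent.Helper35.PX.Rate
import Pool.Agent.Helper89.PX.BCC

/-!
# Project AP (MP_bec853_al), packet CV: the cover, uniformly for all rotations of the word
-/

set_option autoImplicit false

namespace Pool.Agent.Helper35.AP

open FreeGroup Pool.Agent.Helper35.PP Pool.Agent.Helper35.PX Pool.Agent.Helper86.AP
open scoped ENNReal

/-- Third restriction, uniformly for all words. -/
theorem third_u (hB : StmtB) (hC : StmtBCC) {α : Type} [Fintype α] [DecidableEq α]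
    {E : Set (FreeGroup α)} (hE : Good E) {i j z : α} (hij : i ≠ j) (hzi : z ≠ i)
    (hzj : z ≠ j) (hcut : AxisCut z E) :
    ∃ fl ll : (α × Bool) → (α × Bool), ∃ A B : Finset (α × Bool), A ⊆ Yl i j ∧ B ⊆ Yl i j ∧
      Disjoint A B ∧ (Yl i j \ (A ∪ B)).card ≤ 1 ∧ 1 ≤ A.card ∧ 1 ≤ B.card ∧
      ∀ c : List (α × Bool), FreeGroup.IsCyclicallyReduced c → PosLine E (FreeGroup.mk c) →
        R3 i j fl ll A B c := by
  classical
  set V : Finset α := Finset.univ.filter (fun a => a ≠ i ∧ a ≠ j) with hV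
  have hmem : ∀ a, a ∈ V ↔ a ≠ i ∧ a ≠ j := fun a => by simp [hV]
  obtain ⟨f, hf, g, A0, B0, hl, ⟨xa, hxa, hxa'⟩, ⟨xb, hxb, hxb'⟩⟩ :=
    hB α V E z ((hmem z).2 ⟨hzi, hzj⟩) hE hcut
  set θ := f.symm with hθ
  have hθV : ∀ y ∈ V, θ (FreeGroup.of y) = FreeGroup.of y := by
    intro y hy
    rw [hθ, MulEquiv.symm_apply_eq, hf y hy]
  have hθel : ∀ x : α × Bool, x.1 ∈ V → θ (el x) = el x := by
    rintro ⟨a, b⟩ ha
    cases b
    · have : el (a, false) = (FreeGroup.of a)⁻¹ := by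
        simp [el, FreeGroup.of, FreeGroup.inv_mk, FreeGroup.invRev]
      rw [this, _root_.map_inv, hθV a ha]
    · exact hθV a ha
  have hwV : ∀ x : α × Bool, x.1 ∈ V → wd θ x = [x] := by
    intro x hx
    unfold wd
    rw [hθel x hx, toWord_el]
  have hflV : ∀ x : α × Bool, x.1 ∈ V → fl θ x = x := by
    intro x hx
    have h1 := hd_wd (θ := θ) x
    rw [hθel x hx, hd_el] at h1
    exact (Option.some.inj h1).symm
  have hllV : ∀ x : α × Bool, x.1 ∈ V → ll θ x = x := by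
    intro x hx
    have h1 := last_wd (θ := θ) x
    rw [hθel x hx, toWord_el] at h1
    simpa using h1.symm
  -- the sum of the norms
  have hsum : ∑ x, (θ (FreeGroup.of x)).norm =
      (θ (FreeGroup.of i)).norm + (θ (FreeGroup.of j)).norm + (Fintype.card α - 2) := by
    have h1 : (Finset.univ : Finset α) = insert i (insert j V) := by
      ext a
      simp only [Finset.mem_univ, Finset.mem_insert, hmem, true_iff]
      tauto
    have hiV : i ∉ insert j V := by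
      rw [Finset.mem_insert, hmem]
      tauto
    have hjV : j ∉ V := by
      rw [hmem]
      tauto
    have hcard : Fintype.card α = V.card + 2 := by
      rw [← Finset.card_univ, h1, Finset.card_insert_of_notMem hiV,
        Finset.card_insert_of_notMem hjV]
    rw [h1, Finset.sum_insert hiV, Finset.sum_insert hjV, hcard]
    have h2 : ∑ x ∈ V, (θ (FreeGroup.of x)).norm = V.card := by
      rw [Finset.card_eq_sum_ones]
      apply Finset.sum_congr rfl
      intro y hy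
      rw [hθV y hy]
      exact FreeGroup.norm_of y
    rw [h2]
    omega
  have hcard2 : 2 ≤ Fintype.card α := by
    have : ({i, j} : Finset α).card ≤ Fintype.card α := Finset.card_le_univ _
    rwa [Finset.card_pair hij] at this
  -- chains without cancellation
  have hchain : ∀ s : List (α × Bool), FreeGroup.IsReduced s → s.IsChain (GP i j (fl θ) (ll θ)) →
      s.IsChain (fun x y => ll θ x ≠ nv (fl θ y)) := by
    intro s hs1 hs2
    have hs3 := chain_of_reduced hs1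
    have h12 := List.isChain_iff_forall_rel_of_append_cons_cons.1 hs2
    have h13 := List.isChain_iff_forall_rel_of_append_cons_cons.1 hs3
    rw [List.isChain_iff_forall_rel_of_append_cons_cons]
    intro x y l r h
    obtain ⟨g1, g2, g3⟩ := h12 h
    have g4 := h13 h
    by_cases hx : x.1 = i ∨ x.1 = j
    · have hy : ¬ (y.1 = i ∨ y.1 = j) := fun hy => g1 ⟨hx, hy⟩
      have hyV : y.1 ∈ V := (hmem _).2 (not_or.1 hy)
      rw [hflV y hyV]
      exact fun h => g2 hx h.symm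
    · have hxV : x.1 ∈ V := (hmem _).2 (not_or.1 hx)
      rw [hllV x hxV]
      by_cases hy : y.1 = i ∨ y.1 = j
      · intro h5
        apply g3 hy
        rw [h5, nv_nv]
      · have hyV : y.1 ∈ V := (hmem _).2 (not_or.1 hy)
        rw [hflV y hyV]
        intro h5
        apply g4
        rw [h5, nv_nv]
  -- the head of the image of a long product
  have hhead : ∀ (y : α × Bool) (b t : List (α × Bool)), y.1 ∈ V →
      FreeGroup.IsReduced ((y :: b) ++ t) →
      (y :: b).IsChain (fun x y => ll θ x ≠ nv (fl θ y)) →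
      (∃ t ∈ b, t.1 = i) → (∃ t ∈ b, t.1 = j) →
      hd (θ (FreeGroup.mk ((y :: b) ++ t))) = some y := by
    intro y b t hy hred hch hi hj
    have r1 : FreeGroup.IsReduced (y :: b) := red_of hred ⟨[], t, by simp⟩
    have r2 : FreeGroup.IsReduced t := red_of hred ⟨y :: b, [], by simp⟩
    have hn : (FreeGroup.mk (y :: b) * FreeGroup.mk t).norm =
        (FreeGroup.mk (y :: b)).norm + (FreeGroup.mk t).norm := by
      unfold FreeGroup.norm
      rw [FreeGroup.mul_mk, toWord_mk, hred.reduce_eq, toWord_mk, toWord_mk, r1.reduce_eq,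
        r2.reduce_eq, List.length_append]
    have hbcc := hC α θ _ _ hn
    have himg := toWord_img _ hch
    have hlen : (θ (FreeGroup.of i)).norm + (θ (FreeGroup.of j)).norm + 1 ≤
        (θ (FreeGroup.mk (y :: b))).norm := by
      unfold FreeGroup.norm at *
      rw [himg, List.flatMap_cons, List.length_append, hwV y hy, List.length_singleton]
      have := length_flatMap_ge (θ := θ) hij hi hj
      unfold FreeGroup.norm at this
      omega
    rw [← FreeGroup.mul_mk, _root_.map_mul, hd_mul_of_lt]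
    · unfold hd
      rw [himg, List.flatMap_cons, hwV y hy]
      rfl
    · rw [← _root_.map_mul]
      rw [hsum] at hbcc
      omega
  refine ⟨fl θ, ll θ, A0.filter (fun x => x.1 ≠ i ∧ x.1 ≠ j),
    B0.filter (fun x => x.1 ≠ i ∧ x.1 ≠ j), ?_, ?_, ?_, ?_, ?_, ?_, ?_⟩
  · intro x hx
    exact Finset.mem_filter.2 ⟨Finset.mem_univ _, (Finset.mem_filter.1 hx).2⟩
  · intro x hx
    exact Finset.mem_filter.2 ⟨Finset.mem_univ _, (Finset.mem_filter.1 hx).2⟩
  · exact Finset.disjoint_filter_filter hl.disj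
  · rw [Finset.card_le_one]
    intro a ha b hb
    simp only [Yl, Finset.mem_sdiff, Finset.mem_filter, Finset.mem_univ, true_and,
      Finset.mem_union, not_or, not_and] at ha hb
    apply hl.few a b
    · exact fun h => ha.2.1 h ha.1.1 ha.1.2
    · exact fun h => ha.2.2 h ha.1.1 ha.1.2
    · exact fun h => hb.2.1 h hb.1.1 hb.1.2
    · exact fun h => hb.2.2 h hb.1.1 hb.1.2
  · exact Finset.card_pos.2 ⟨xa, Finset.mem_filter.2 ⟨hxa, (hmem _).1 hxa'⟩⟩
  · exact Finset.card_pos.2 ⟨xb, Finset.mem_filter.2 ⟨hxb, (hmem _).1 hxb'⟩⟩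
  · intro c hc hu l a x y b r hcv hch hxi hxj hyi hyj hai haj hbi hbj hxA hyB
    have hxV : x.1 ∈ V := (hmem _).2 ⟨hxi, hxj⟩
    have hyV : y.1 ∈ V := (hmem _).2 ⟨hyi, hyj⟩
    have hxA0 := (Finset.mem_filter.1 hxA).1
    have hyB0 := (Finset.mem_filter.1 hyB).1
    -- rotation
    have e : c = (l ++ a ++ [x]) ++ (y :: b ++ r) := by
      rw [hcv]; simp
    have hc' : FreeGroup.IsCyclicallyReduced ((y :: b ++ r) ++ (l ++ a ++ [x])) := by
      rw [e] at hc
      exact rotate_cyc hc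
    have hm := mk_rotate (l ++ a ++ [x]) (y :: b ++ r)
    rw [← e] at hm
    have hsred : FreeGroup.IsReduced (a ++ x :: y :: b) :=
      red_of hc.isReduced ⟨l, r, by rw [hcv]⟩
    refine restriction (t := FreeGroup.mk (l ++ a ++ [x])) hu f hl hxA0 hyB0 hm ?_ ?_
    · intro n
      have hred := (hc'.flatten_replicate (n + 1)).isReduced
      rw [mk_pow_eq, List.replicate_succ, List.flatten_cons]
      rw [List.replicate_succ, List.flatten_cons] at hred
      have e2 : ((y :: b ++ r) ++ (l ++ a ++ [x])) ++ (List.replicate n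
          ((y :: b ++ r) ++ (l ++ a ++ [x]))).flatten = (y :: b) ++ (r ++ (l ++ a ++ [x]) ++
          (List.replicate n ((y :: b ++ r) ++ (l ++ a ++ [x]))).flatten) := by
        simp
      rw [e2] at hred ⊢
      apply hhead y b _ hyV hred _ hbi hbj
      apply hchain _ (red_of hred ⟨[], _, by rw [List.nil_append]⟩)
      exact (hch.right_of_append).tail
    · intro n
      have e1 : ((FreeGroup.mk ((y :: b ++ r) ++ (l ++ a ++ [x]))) ^ (n + 1))⁻¹ =
          (FreeGroup.mk (FreeGroup.invRev ((y :: b ++ r) ++ (l ++ a ++ [x])))) ^ (n + 1) := by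
        rw [← FreeGroup.inv_mk, inv_pow]
      have hinv := invRev_cyc hc'
      have e3 : FreeGroup.invRev ((y :: b ++ r) ++ (l ++ a ++ [x])) =
          (nv x :: FreeGroup.invRev a) ++ (FreeGroup.invRev l ++
            FreeGroup.invRev (y :: b ++ r)) := by
        rw [FreeGroup.invRev_append, FreeGroup.invRev_append, FreeGroup.invRev_append]
        simp [FreeGroup.invRev, nv]
      have hred := (hinv.flatten_replicate (n + 1)).isReduced
      rw [e1, mk_pow_eq, List.replicate_succ, List.flatten_cons]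
      rw [List.replicate_succ, List.flatten_cons] at hred
      rw [e3] at hred ⊢
      rw [List.append_assoc] at hred ⊢
      have hinvmem : ∀ k : α, (∃ t ∈ a, t.1 = k) → ∃ t ∈ FreeGroup.invRev a, t.1 = k := by
        rintro k ⟨t, ht, hk⟩
        refine ⟨nv t, ?_, hk⟩
        unfold FreeGroup.invRev
        rw [List.mem_reverse, List.mem_map]
        exact ⟨t, ht, rfl⟩
      apply hhead (nv x) (FreeGroup.invRev a) _ hxV hred _ (hinvmem i hai) (hinvmem j haj)
      -- the chain for the reversed word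
      have h1 : (a ++ [x]).IsChain (fun x y => ll θ x ≠ nv (fl θ y)) := by
        apply hchain
        · exact red_of hsred ⟨[], y :: b, by simp⟩
        · have : a ++ x :: y :: b = (a ++ [x]) ++ (y :: b) := by simp
          rw [this] at hch
          exact hch.left_of_append
      have h2 : nv x :: FreeGroup.invRev a = ((a ++ [x]).map nv).reverse := by
        simp [FreeGroup.invRev, nv]
      rw [h2, List.isChain_reverse, List.isChain_map]
      apply h1.imp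
      intro p q hpq h3
      apply hpq
      rw [ll_nv, fl_nv, nv_nv] at h3
      exact h3.symm


section

variable {α : Type} [Fintype α] [DecidableEq α]

omit [Fintype α] in
lemma rot_props {c c' : List (α × Bool)} {E : Set (FreeGroup α)}
    (hc : FreeGroup.IsCyclicallyReduced c) (hu : PosLine E (FreeGroup.mk c)) (h : c' ~r c) :
    FreeGroup.IsCyclicallyReduced c' ∧ PosLine E (FreeGroup.mk c') := by
  obtain ⟨n, hn⟩ := h.symm
  rw [List.rotate_eq_drop_append_take_mod] at hn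
  have e := List.take_append_drop (n % c.length) c
  generalize List.take (n % c.length) c = a at hn e
  generalize List.drop (n % c.length) c = b at hn e
  subst hn
  subst e
  refine ⟨rotate_cyc hc, ?_⟩
  rw [mk_rotate]
  exact hu.conj _

/-- dichotomy at a leaf -/
lemma leaf_dich_u {E : Set (FreeGroup α)} {g : FreeGroup α}
    {A B : Finset (α × Bool)} (hl : IsLeaf E g A B) :
    (Disjoint A B ∧ (Finset.univ \ (A ∪ B)).card ≤ 1 ∧ 3 ≤ A.card ∧ 3 ≤ B.card) ∨
      ∃ (t : Bool) (S : Finset (α × Bool)), S.Nonempty ∧ S.card ≤ 2 ∧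
        ∀ s ∈ S, ∃ X : Finset (α × Bool), X.card ≤ 2 ∧ ∀ c : List (α × Bool),
          FreeGroup.IsCyclicallyReduced c → PosLine E (FreeGroup.mk c) →
          Ru t (if t then nv s else s) X c := by
  have hmiss : (Finset.univ \ (A ∪ B)).card ≤ 1 := by
    rw [Finset.card_le_one]
    intro a ha b hb
    simp only [Finset.mem_sdiff, Finset.mem_union, not_or, Finset.mem_univ, true_and] at ha hb
    exact hl.few a b ha.1 ha.2 hb.1 hb.2
  by_cases h1 : A.card ≤ 2
  · right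
    refine ⟨true, A, hl.neA, h1, ?_⟩
    intro s hs
    refine ⟨nxt B s, (card_nxt hl.disj hmiss hs).trans h1, ?_⟩
    intro c hc hu
    exact ruF A B (Lang_of_leaf hl hc hu) hs
  by_cases h2 : B.card ≤ 2
  · right
    refine ⟨false, B, hl.neB, h2, ?_⟩
    intro s hs
    refine ⟨prv A s, (card_prv hl.disj hmiss hs).trans h2, ?_⟩
    intro c hc hu
    exact ruP A B (Lang_of_leaf hl hc hu) hs
  left
  exact ⟨hl.disj, hmiss, by omega, by omega⟩

/-! ### the classes -/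

lemma cls4 (hr : 100 ≤ Fintype.card α) {t1 t2 : Bool} {ρ1 ρ2 : α × Bool}
    {X1 X2 : Finset (α × Bool)} {fl ll : (α × Bool) → (α × Bool)}
    {A B A' B' : Finset (α × Bool)} (hne : ρ1.1 ≠ ρ2.1)
    (hX1 : X1.card ≤ 2) (hX2 : X2.card ≤ 3) (hAB : Sides (Yl ρ1.1 ρ2.1) A B)
    (hAB' : Sides (Zi ρ1.1) A' B')
    (hrule : ∀ v : List (α × Bool), v.IsChain (fun x y => y ≠ nv x) →
        NB ρ1.1 (bd A' B') v → Ru t2 ρ2 X2 v) :
    Cls ρ1.1 (S4 t1 ρ1 X1 ρ2.1 fl ll A B) A' B' where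
  fc := FactorClosed.and factorClosed_red (FactorClosed.and (factorClosed_Ru _ _ _)
      (factorClosed_R3 _ _ _ _ _ _))
  red := fun v hv => hv.1
  sides := hAB'
  bound := by
    refine le_trans (W_mono ?_) (W_K3_le Pool.Agent.Helper49.PX.stmtElimF
      Pool.Agent.Helper49.PX.stmtElimP Pool.Agent.Helper24.PX.stmtF0
      Pool.Agent.Helper88.PX.stmtL hr (t1 := t1) (t2 := t2) (X1 := X1)
      (X2 := X2) (fl := fl) (ll := ll) hne hX1 hX2 hAB)
    rintro v ⟨⟨h1, h2, h3⟩, h4⟩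
    exact ⟨h1, h2, hrule v h1 h4, h3⟩

lemma cls2 (hr : 100 ≤ Fintype.card α) {t1 t2 : Bool} {ρ : α × Bool}
    {X1 X2 : Finset (α × Bool)} {A' B' : Finset (α × Bool)}
    (hX1 : X1.card ≤ 2) (hX2 : X2.card ≤ 2) (hAB : Sides (Zi ρ.1) A' B') :
    Cls ρ.1 (S2 t1 t2 ρ (nv ρ) X1 X2) A' B' := by
  have hF := Pool.Agent.Helper49.PX.stmtElimF
  have hP := Pool.Agent.Helper49.PX.stmtElimP
  have hL := Pool.Agent.Helper88.PX.stmtL
  have hR : (100 : ℝ) ≤ Fintype.card α := by exact_mod_cast hr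
  set R : ℝ := (Fintype.card α : ℝ) with hRdef
  have hzz := z0_pos hr
  have hzz1 := z0_lt hr
  have hS : FactorClosed (S2 t1 t2 ρ (nv ρ) X1 X2) :=
    FactorClosed.and factorClosed_red (FactorClosed.and (factorClosed_Ru _ _ _)
      (factorClosed_Ru _ _ _))
  have hS' : FactorClosed {v | v ∈ S2 t1 t2 ρ (nv ρ) X1 X2 ∧ NB ρ.1 (bd A' B') v} :=
    FactorClosed.and' hS (factorClosed_NB _ _)
  refine ⟨hS, fun v hv => hv.1, hAB, ?_⟩
  refine le_trans (b := ENNReal.ofReal (4 * R)) ?_ (ENNReal.ofReal_le_ofReal (by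
    rw [← hRdef]; nlinarith))
  apply elim' hF hP t1 ρ X1 (w0 := 3 * R) (m := 2) hzz.le hzz1 hS' (fun v hv => hv.1.2.1)
    (by positivity) (by positivity) _ hX1
  · unfold z0
    rw [← hRdef]
    apply num_step hR
    push_cast
    nlinarith [mul_nonneg (sub_nonneg.2 hR) (sub_nonneg.2 hR)]
  apply elim' hF hP t2 (nv ρ) X2 (w0 := 21 / 10 * R) (m := 2) hzz.le hzz1
    (FactorClosed.and' hS' (factorClosed_notMem _)) (fun v hv => hv.1.1.2.2)
    (by positivity) (by positivity) _ hX2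
  · unfold z0
    rw [← hRdef]
    apply num_step hR
    push_cast
    nlinarith [mul_nonneg (sub_nonneg.2 hR) (sub_nonneg.2 hR)]
  have h := (W_noi_NB hL hr (i := ρ.1) hAB (S := {v | v ∈ {v | v ∈ {v | v ∈ S2 t1 t2 ρ (nv ρ) X1 X2 ∧
    NB ρ.1 (bd A' B') v} ∧ ρ ∉ v} ∧ nv ρ ∉ v}) ?_).1
  · refine h.trans (ENNReal.ofReal_le_ofReal (le_of_eq ?_))
    rw [← hRdef]
    ring
  · rintro v ⟨⟨⟨⟨h1, -, -⟩, h2⟩, h3⟩, h4⟩
    refine ⟨h1, h2, ?_⟩
    intro x hx hxi
    by_cases hxr : x = ρ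
    · exact h3 (hxr ▸ hx)
    · exact h4 (eq_nv_of hxi hxr ▸ hx)

lemma cls3 (hr : 100 ≤ Fintype.card α) {t1 : Bool} {ρ : α × Bool} {X1 : Finset (α × Bool)}
    {A' B' : Finset (α × Bool)}
    (hX1 : X1.card ≤ 2) (hAB : Sides (Zi ρ.1) A' B') (hA2 : 2 ≤ A'.card) (hB2 : 2 ≤ B'.card) :
    Cls ρ.1 (S1 t1 ρ X1) A' B' := by
  have hF := Pool.Agent.Helper49.PX.stmtElimF
  have hP := Pool.Agent.Helper49.PX.stmtElimP
  have hL := Pool.Agent.Helper88.PX.stmtL
  have hR : (100 : ℝ) ≤ Fintype.card α := by exact_mod_cast hr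
  set R : ℝ := (Fintype.card α : ℝ) with hRdef
  have hzz := z0_pos hr
  have hzz1 := z0_lt hr
  have hS : FactorClosed (S1 t1 ρ X1) :=
    FactorClosed.and factorClosed_red (factorClosed_Ru _ _ _)
  have hS' : FactorClosed {v | v ∈ S1 t1 ρ X1 ∧ NB ρ.1 (bd A' B') v} :=
    FactorClosed.and' hS (factorClosed_NB _ _)
  refine ⟨hS, fun v hv => hv.1, hAB, ?_⟩
  refine le_trans (b := ENNReal.ofReal (4 * R)) ?_ (ENNReal.ofReal_le_ofReal (by
    rw [← hRdef]; nlinarith))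
  apply elim' hF hP t1 ρ X1 (w0 := 3 * R) (m := 2) hzz.le hzz1 hS' (fun v hv => hv.1.2)
    (by positivity) (by positivity) _ hX1
  · unfold z0
    rw [← hRdef]
    apply num_step hR
    push_cast
    nlinarith [mul_nonneg (sub_nonneg.2 hR) (sub_nonneg.2 hR)]
  have hq : 0 < 2 * R - 3 := by linarith
  have hzT : z0 α * (11 * R / 10) < 6 / 10 := by
    unfold z0
    rw [← hRdef, one_div_mul_eq_div, div_lt_iff₀ hq]
    linarith
  have hsplit := W_split_real (z := z0 α) (T := 11 * R / 10) hzz.le (by positivity)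
    (by linarith) (nv ρ) (FactorClosed.and' hS' (factorClosed_notMem ρ)) (by
      apply (W_noi_NB hL hr (i := ρ.1) hAB ?_).2 hA2 hB2
      rintro v ⟨⟨⟨⟨h1, -⟩, h2⟩, h3⟩, h4⟩
      refine ⟨h1, h2, ?_⟩
      intro x hx hxi
      by_cases hxr : x = ρ
      · exact h3 (hxr ▸ hx)
      · exact h4 (eq_nv_of hxi hxr ▸ hx))
  refine hsplit.trans (ENNReal.ofReal_le_ofReal ?_)
  rw [div_le_iff₀ (by linarith)]
  nlinarith

/-! ### the index set -/

/-- data of a class -/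
abbrev Dt (α : Type) : Type :=
  α × Set (List (α × Bool)) × Finset (α × Bool) × Finset (α × Bool)

/-- the classes with two rules -/
def Q2 (α : Type) [Fintype α] [DecidableEq α] : Set (Dt α) :=
  (fun p : (Bool × Bool × (α × Bool) × Finset (α × Bool) × Finset (α × Bool)) ×
      (Finset (α × Bool) × Finset (α × Bool)) =>
    ((p.1.2.2.1.1, S2 p.1.1 p.1.2.1 p.1.2.2.1 (nv p.1.2.2.1) p.1.2.2.2.1 p.1.2.2.2.2,
      p.2.1, p.2.2) : Dt α)) ''
    {p | p.1.2.2.2.1.card ≤ 2 ∧ p.1.2.2.2.2.card ≤ 2 ∧ Sides (Zi p.1.2.2.1.1) p.2.1 p.2.2}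

/-- the classes with one rule -/
def Q3 (α : Type) [Fintype α] [DecidableEq α] : Set (Dt α) :=
  (fun p : (Bool × (α × Bool) × Finset (α × Bool)) ×
      (Finset (α × Bool) × Finset (α × Bool)) =>
    ((p.1.2.1.1, S1 p.1.1 p.1.2.1 p.1.2.2, p.2.1, p.2.2) : Dt α)) ''
    {p | p.1.2.2.card ≤ 2 ∧ Sides (Zi p.1.2.1.1) p.2.1 p.2.2 ∧ 2 ≤ p.2.1.card ∧ 2 ≤ p.2.2.card}

/-- the classes with one rule and the third restriction -/
def Q4 (α : Type) [Fintype α] [DecidableEq α] : Set (Dt α) :=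
  (fun p : (Bool × Bool × (α × Bool) × (α × Bool) × Finset (α × Bool) × Finset (α × Bool)) ×
      (((α × Bool) → (α × Bool)) × ((α × Bool) → (α × Bool)) × Finset (α × Bool) ×
        Finset (α × Bool)) × (Finset (α × Bool) × Finset (α × Bool)) =>
    ((p.1.2.2.1.1, S4 p.1.1 p.1.2.2.1 p.1.2.2.2.2.1 p.1.2.2.2.1.1
        p.2.1.1 p.2.1.2.1 p.2.1.2.2.1 p.2.1.2.2.2, p.2.2.1, p.2.2.2) : Dt α)) ''
    {p | p.1.2.2.1.1 ≠ p.1.2.2.2.1.1 ∧ p.1.2.2.2.2.1.card ≤ 2 ∧ p.1.2.2.2.2.2.card ≤ 3 ∧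
        Sides (Yl p.1.2.2.1.1 p.1.2.2.2.1.1) p.2.1.2.2.1 p.2.1.2.2.2 ∧
        Sides (Zi p.1.2.2.1.1) p.2.2.1 p.2.2.2 ∧
        (∀ v : List (α × Bool), v.IsChain (fun x y => y ≠ nv x) →
          NB p.1.2.2.1.1 (bd p.2.2.1 p.2.2.2) v →
            Ru p.1.2.1 p.1.2.2.2.1 p.1.2.2.2.2.2 v)}

lemma cls_of_mem (hr : 100 ≤ Fintype.card α) {t : Dt α} (ht : t ∈ Q2 α ∪ Q3 α ∪ Q4 α) :
    Cls t.1 t.2.1 t.2.2.1 t.2.2.2 := by
  rcases ht with (⟨p, ⟨h1, h2, h3⟩, rfl⟩ | ⟨p, ⟨h1, h2, h3, h4⟩, rfl⟩) |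
    ⟨p, ⟨h1, h2, h3, h4, h5, h6⟩, rfl⟩
  · exact cls2 hr h1 h2 h3
  · exact cls3 hr h1 h2 h3 h4
  · exact cls4 hr h1 h2 h3 h4 h5 h6

/-- the set of the exceptional words -/
def K0 (α : Type) [Fintype α] [DecidableEq α] : Set (List (α × Bool)) :=
  {c | ∃ p : Finset (α × Bool) × Finset (α × Bool), (Disjoint p.1 p.2 ∧
      (Finset.univ \ (p.1 ∪ p.2)).card ≤ 1 ∧ 3 ≤ p.1.card ∧ 3 ≤ p.2.card) ∧
        c ∈ Lang Finset.univ p.1 p.2} ∪
  {c | ∃ p : (Bool × Bool × (α × Bool) × (α × Bool) × Finset (α × Bool) × Finset (α × Bool)) ×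
      (((α × Bool) → (α × Bool)) × ((α × Bool) → (α × Bool)) × Finset (α × Bool) ×
        Finset (α × Bool)),
      (p.1.2.2.1.1 ≠ p.1.2.2.2.1.1 ∧ p.1.2.2.2.2.1.card ≤ 2 ∧ p.1.2.2.2.2.2.card ≤ 3 ∧
        Sides (Yl p.1.2.2.1.1 p.1.2.2.2.1.1) p.2.2.2.1 p.2.2.2.2) ∧
      c ∈ K3 p.1.1 p.1.2.1 p.1.2.2.1 p.1.2.2.2.1 p.1.2.2.2.2.1 p.1.2.2.2.2.2
        p.2.1 p.2.2.1 p.2.2.2.1 p.2.2.2.2}

lemma W_K0 (hr : 100 ≤ Fintype.card α) : W (ENNReal.ofReal (z0 α)) (K0 α) < ⊤ := by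
  refine lt_of_le_of_lt (W_union_le _ _ _) (ENNReal.add_lt_top.2 ⟨?_, ?_⟩)
  · refine W_cover (fun p : Finset (α × Bool) × Finset (α × Bool) => Lang Finset.univ p.1 p.2)
      (fun p => Disjoint p.1 p.2 ∧
      (Finset.univ \ (p.1 ∪ p.2)).card ≤ 1 ∧ 3 ≤ p.1.card ∧ 3 ≤ p.2.card) ?_ (fun c hc => hc)
    rintro ⟨A, B⟩ ⟨h1, h2, h3, h4⟩
    apply (Pool.Agent.Helper88.PX.stmtL α Finset.univ A B hr univ_nv (Finset.subset_univ _)
      (Finset.subset_univ _) h1 h2).2.2.2 _ h3 h4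
    rw [Finset.card_univ, Fintype.card_prod, Fintype.card_bool, mul_comm]
  · refine W_cover _ _ ?_ (fun c hc => hc)
    rintro ⟨⟨t1, t2, ρ1, ρ2, X1, X2⟩, ⟨fl, ll, A, B⟩⟩ ⟨h1, h2, h3, h4⟩
    exact lt_of_le_of_lt (W_K3_le Pool.Agent.Helper49.PX.stmtElimF
      Pool.Agent.Helper49.PX.stmtElimP Pool.Agent.Helper24.PX.stmtF0
      Pool.Agent.Helper88.PX.stmtL hr h1 h2 h3 h4) ENNReal.ofReal_lt_top

/-- the second restriction for all representations of the rotations of a word -/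
lemma sec_all (hS : S_SEC) {c : List (α × Bool)} (hc : FreeGroup.IsCyclicallyReduced c)
    {E : Set (FreeGroup α)} (hE : Good E) (hu : PosLine E (FreeGroup.mk c)) {i : α}
    (hK : CutsZ i E) :
    ∃ A B : Finset (α × Bool), Sides (Zi i) A B ∧ ∃ a ∈ ZS i, ∃ d ∈ ZS i,
      ∀ (m : ℕ) (s : Fin (m + 1) → Bool) (b : Fin (m + 1) → List (α × Bool)),
        cw i m s b ~r c → (∀ k, ∀ x ∈ b k, x.1 ≠ i) → Tr i A B a d m s b := by
  obtain ⟨a, ha, d, hd, A, B, hAB, h⟩ := hS α E i hE hK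
  refine ⟨A, B, hAB, a, ha, d, hd, ?_⟩
  intro m s b hrot hb
  obtain ⟨h1, h2⟩ := rot_props hc hu hrot
  exact h m s b hb h1 h2

theorem coverU (hS : S_SEC) (hr : 100 ≤ Fintype.card α) {c : List (α × Bool)}
    (hcyc : FreeGroup.IsCyclicallyReduced c) (hadm : AdmX (FreeGroup.mk c)) :
    c ∈ K0 α ∨ ∃ t ∈ Q2 α ∪ Q3 α ∪ Q4 α, (∀ c', c' ~r c → c' ∈ t.2.1) ∧ ∃ a ∈ ZS t.1,
      ∃ d ∈ ZS t.1, ∀ (m : ℕ) (s : Fin (m + 1) → Bool) (b : Fin (m + 1) → List (α × Bool)),
        cw t.1 m s b ~r c → (∀ k, ∀ x ∈ b k, x.1 ≠ t.1) →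
          Tr t.1 t.2.2.1 t.2.2.2 a d m s b := by
  have hB := Pool.Agent.Helper3.PX.stmtB
  have hC := Pool.Agent.Helper89.PX.stmtBCC
  have hred : ∀ c', c' ~r c → c'.IsChain (fun x y => y ≠ nv x) := by
    intro c' h
    obtain ⟨z1⟩ : Nonempty α := Fintype.card_pos_iff.1 (by omega)
    obtain ⟨E, hE, hu, hcut⟩ := hadm z1
    exact chain_of_reduced (rot_props hcyc hu h).1.isReduced
  obtain ⟨z1⟩ : Nonempty α := Fintype.card_pos_iff.1 (by omega)
  obtain ⟨E, hE, hu, hcut⟩ := hadm z1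
  obtain ⟨g, A, B, hl⟩ := exists_leaf hE hcut.infinite.1 hcut.infinite.2
  rcases leaf_dich_u hl with ⟨h1, h2, h3, h4⟩ | ⟨t, S, hSne, hSle, hSru⟩
  · left
    exact Or.inl ⟨(A, B), ⟨h1, h2, h3, h4⟩, Lang_of_leaf hl hcyc hu⟩
  have hS1 : 1 ≤ S.card := Finset.card_pos.2 hSne
  by_cases hcard : S.card = 2
  · obtain ⟨s1, s2, hs12, rfl⟩ := Finset.card_eq_two.1 hcard
    obtain ⟨X1, hX1, hR1⟩ := hSru s1 (by simp)
    obtain ⟨X2, hX2, hR2⟩ := hSru s2 (by simp)
    by_cases hlet : s1.1 = s2.1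
    · -- both letters of `i`
      right
      have hs2 : s2 = nv s1 := eq_nv_of hlet.symm hs12.symm
      set ρ := (if t then nv s1 else s1) with hρ
      obtain ⟨z, hz, -⟩ := exists_ne2 hr ρ.1 ρ.1
      obtain ⟨E', hE', hu', hcut'⟩ := hadm z
      obtain ⟨A', B', hAB, hrest⟩ := sec_all hS hcyc hE' hu' (hcut'.cutsZ hz)
      have hR2' : ∀ c : List (α × Bool), FreeGroup.IsCyclicallyReduced c →
          PosLine E (FreeGroup.mk c) → Ru t (nv ρ) X2 c := by
        intro c hc hu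
        have h := hR2 c hc hu
        have e : nv ρ = (if t then nv s2 else s2) := by
          rw [hρ, hs2]
          cases t <;> rfl
        rw [e]
        exact h
      refine ⟨_, Or.inl (Or.inl ⟨((t, t, ρ, X1, X2), (A', B')), ⟨hX1, hX2, hAB⟩, rfl⟩), ?_,
        hrest⟩
      intro c' h
      obtain ⟨k1, k2⟩ := rot_props hcyc hu h
      exact ⟨hred c' h, hR1 c' k1 k2, hR2' c' k1 k2⟩
    · left
      right
      obtain ⟨z, hz1, hz2⟩ := exists_ne2 hr s1.1 s2.1
      obtain ⟨E', hE', hu', hcut'⟩ := hadm z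
      obtain ⟨fl, ll, A', B', h1, h2, h3, h4, h5, h6, h7⟩ :=
        third hB hC hcyc hE' hu' hlet hz1 hz2 hcut'
      refine ⟨((t, t, (if t then nv s1 else s1), (if t then nv s2 else s2), X1, X2),
        (fl, ll, A', B')), ⟨?_, hX1, hX2.trans (by norm_num), ?_⟩, ?_⟩
      · cases t <;> exact hlet
      · cases t <;> exact ⟨h1, h2, h3, h4, h5, h6⟩
      · refine ⟨hred c (List.IsRotated.refl c), hR1 c hcyc hu, hR2 c hcyc hu, ?_⟩
        cases t <;> exact h7
  · obtain ⟨s, rfl⟩ := Finset.card_eq_one.1 (show S.card = 1 by omega)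
    obtain ⟨X1, hX1, hR1⟩ := hSru s (by simp)
    set ρ := (if t then nv s else s) with hρ
    obtain ⟨z, hz, -⟩ := exists_ne2 hr ρ.1 ρ.1
    obtain ⟨E', hE', hu', hcut'⟩ := hadm z
    obtain ⟨A', B', hAB, hrest⟩ := sec_all hS hcyc hE' hu' (hcut'.cutsZ hz)
    right
    rcases rule2 hAB.1 hAB.2.1 hAB.2.2.2.1 hAB.2.2.2.2.1 hAB.2.2.2.2.2 with
      ⟨k1, k2⟩ | ⟨t2, ρ2, X2, k1, k2, k3⟩
    · refine ⟨_, Or.inl (Or.inr ⟨((t, ρ, X1), (A', B')), ⟨hX1, hAB, k1, k2⟩, rfl⟩), ?_, hrest⟩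
      intro c' h
      obtain ⟨m1, m2⟩ := rot_props hcyc hu h
      exact ⟨hred c' h, hR1 c' m1 m2⟩
    · obtain ⟨z2, hz1, hz2⟩ := exists_ne2 hr ρ.1 ρ2.1
      obtain ⟨E2, hE2, hu2, hcut2⟩ := hadm z2
      obtain ⟨fl, ll, A2, B2, m1, m2, m3, m4, m5, m6, m7⟩ :=
        third_u hB hC hE2 (Ne.symm k1) hz1 hz2 hcut2
      refine ⟨_, Or.inr ⟨((t, t2, ρ, ρ2, X1, X2), (fl, ll, A2, B2), (A', B')),
        ⟨Ne.symm k1, hX1, k2, ⟨m1, m2, m3, m4, m5, m6⟩, hAB, k3⟩, rfl⟩, ?_, hrest⟩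
      intro c' h
      obtain ⟨n1, n2⟩ := rot_props hcyc hu h
      obtain ⟨n3, n4⟩ := rot_props hcyc hu2 h
      exact ⟨hred c' h, hR1 c' n1 n2, m7 c' n3 n4⟩

end

/-- **CV** -/
theorem tCV : Pool.Agent.Helper86.AP.S_CV := by
  intro hS α _ _ hr
  refine ⟨K0 α, W_K0 hr, ↥(Q2 α ∪ Q3 α ∪ Q4 α), ?_, fun t => t.1.1, fun t => t.1.2.1,
    fun t => t.1.2.2.1, fun t => t.1.2.2.2, fun t => cls_of_mem hr t.2, ?_⟩
  · have h2 : (Q2 α).Finite := (Set.toFinite _).image _
    have h3 : (Q3 α).Finite := (Set.toFinite _).image _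
    have h4 : (Q4 α).Finite := (Set.toFinite _).image _
    exact ((h2.union h3).union h4).to_subtype
  · intro c hc hadm
    rcases coverU hS hr hc hadm with h | ⟨t, ht, h1, h2⟩
    · exact Or.inl h
    · exact Or.inr ⟨⟨t, ht⟩, h1, h2⟩

end Pool.Agent.Helper35.AP
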