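import Pool.Agent.Helper86.AP.Goals

/-!
# Project AP (MP_bec853_al), packet LIM
-/

set_option autoImplicit false

namespace Pool.Agent.Helper35.AP

open Filter Topology

theorem tLIM : Pool.Agent.Helper86.AP.S_LIM := by
  intro T U A q ρ τ hA hq hρ hqρ hT0 hTn hU hT
  have hρ0 : 0 < ρ := by linarith
  have hρ2 : 0 < ρ ^ 2 := by positivity
  set r : ℕ → ℝ := fun n => T n / (n * ρ ^ n) with hr
  have hrn : ∀ n, 0 ≤ r n := fun n => by
    have := hTn n
    simp only [hr]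
    positivity
  obtain ⟨C, hC⟩ := hT.bddAbove_range
  have hC' : ∀ n, r n ≤ C := fun n => hC ⟨n, rfl⟩
  have hC0 : 0 ≤ C := (hrn 0).trans (hC' 0)
  have hTr : ∀ m, T m = r m * (m * ρ ^ m) := by
    intro m
    by_cases hm : m = 0
    · subst hm
      simp [hT0]
    · have : (m : ℝ) ≠ 0 := Nat.cast_ne_zero.2 hm
      simp only [hr]
      field_simp
  -- the terms of the series
  set f : ℕ → ℕ → ℝ := fun n k =>
    if k < n / 2 then A * q ^ k * T (n - 2 * (k + 1)) / (n * ρ ^ n) else 0 with hf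
  set x : ℝ := q / ρ ^ 2 with hx
  have hx0 : 0 ≤ x := by positivity
  have hx1 : x < 1 := (div_lt_one hρ2).2 hqρ
  have hfk : ∀ n k, k < n / 2 → f n k
      = A * q ^ k * (r (n - 2 * (k + 1)) * (((n - 2 * (k + 1) : ℕ) : ℝ) / n)
        * ((ρ ^ 2) ^ (k + 1))⁻¹) := by
    intro n k hk
    obtain ⟨m, hm⟩ : ∃ m, n = m + 2 * (k + 1) := ⟨n - 2 * (k + 1), by omega⟩
    have hm' : n - 2 * (k + 1) = m := by omega
    simp only [hf]
    rw [if_pos hk, hm', hTr m]
    have hn0 : (n : ℝ) ≠ 0 := Nat.cast_ne_zero.2 (by omega)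
    have e1 : ρ ^ n = ρ ^ m * (ρ ^ 2) ^ (k + 1) := by
      rw [hm, pow_add, pow_mul]
    rw [e1]
    have h2 : ρ ^ m ≠ 0 := by positivity
    have h3 : (ρ ^ 2) ^ (k + 1) ≠ 0 := by positivity
    field_simp
  have hsplit : ∀ k, A * q ^ k * ((ρ ^ 2) ^ (k + 1))⁻¹ = A / ρ ^ 2 * x ^ k := by
    intro k
    rw [hx, div_pow, pow_succ]
    have h3 : (ρ ^ 2) ^ k ≠ 0 := by positivity
    field_simp
  have hbound : Summable fun k : ℕ => A / ρ ^ 2 * C * x ^ k :=
    (summable_geometric_of_lt_one hx0 hx1).mul_left _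
  have hlim : ∀ k, Tendsto (fun n => f n k) atTop (𝓝 (A / ρ ^ 2 * τ * x ^ k)) := by
    intro k
    have h1 : Tendsto (fun n : ℕ => r (n - 2 * (k + 1))) atTop (𝓝 τ) :=
      hT.comp (tendsto_sub_atTop_nat _)
    have h2 : Tendsto (fun n : ℕ => 1 - ((2 * (k + 1) : ℕ) : ℝ) / n) atTop (𝓝 (1 - 0)) :=
      tendsto_const_nhds.sub (tendsto_const_div_atTop_nhds_zero_nat _)
    have h3 := (h1.mul h2).const_mul (A * q ^ k * ((ρ ^ 2) ^ (k + 1))⁻¹)
    have e1 : A * q ^ k * ((ρ ^ 2) ^ (k + 1))⁻¹ * (τ * (1 - 0)) = A / ρ ^ 2 * τ * x ^ k := by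
      rw [hsplit]
      ring
    rw [e1] at h3
    refine h3.congr' ?_
    filter_upwards [eventually_ge_atTop (2 * (k + 1) + 2)] with n hn
    have hk : k < n / 2 := by omega
    rw [hfk n k hk]
    have hn0 : (n : ℝ) ≠ 0 := Nat.cast_ne_zero.2 (by omega)
    have e2 : ((n - 2 * (k + 1) : ℕ) : ℝ) / n = 1 - ((2 * (k + 1) : ℕ) : ℝ) / n := by
      rw [Nat.cast_sub (by omega), sub_div, div_self hn0]
    rw [e2]
    ring
  have hbd : ∀ n k, ‖f n k‖ ≤ A / ρ ^ 2 * C * x ^ k := by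
    intro n k
    by_cases hk : k < n / 2
    · rw [hfk n k hk]
      have hn0 : (0 : ℝ) < n := Nat.cast_pos.2 (by omega)
      have h1 : ((n - 2 * (k + 1) : ℕ) : ℝ) / n ≤ 1 := by
        rw [div_le_one hn0]
        exact Nat.cast_le.2 (Nat.sub_le _ _)
      have h1' : 0 ≤ ((n - 2 * (k + 1) : ℕ) : ℝ) / n := by positivity
      have h2 : r (n - 2 * (k + 1)) * (((n - 2 * (k + 1) : ℕ) : ℝ) / n) ≤ C :=
        (mul_le_of_le_one_right (hrn _) h1).trans (hC' _)
      have h2' : 0 ≤ r (n - 2 * (k + 1)) * (((n - 2 * (k + 1) : ℕ) : ℝ) / n) :=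
        mul_nonneg (hrn _) h1'
      have h3 : 0 ≤ ((ρ ^ 2) ^ (k + 1))⁻¹ := by positivity
      have h4 : 0 ≤ A * q ^ k := by positivity
      rw [Real.norm_of_nonneg (mul_nonneg h4 (mul_nonneg h2' h3))]
      calc A * q ^ k * (r (n - 2 * (k + 1)) * (((n - 2 * (k + 1) : ℕ) : ℝ) / n)
          * ((ρ ^ 2) ^ (k + 1))⁻¹) ≤ A * q ^ k * (C * ((ρ ^ 2) ^ (k + 1))⁻¹) :=
            mul_le_mul_of_nonneg_left (mul_le_mul_of_nonneg_right h2 h3) h4
        _ = A / ρ ^ 2 * C * x ^ k := by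
            have := hsplit k
            calc A * q ^ k * (C * ((ρ ^ 2) ^ (k + 1))⁻¹)
                = C * (A * q ^ k * ((ρ ^ 2) ^ (k + 1))⁻¹) := by ring
              _ = A / ρ ^ 2 * C * x ^ k := by
                rw [this]
                ring
    · simp only [hf]
      rw [if_neg hk, norm_zero]
      positivity
  have hmain := tendsto_tsum_of_dominated_convergence (𝓕 := atTop) hbound hlim
    (Eventually.of_forall hbd)
  have hg : ∑' k : ℕ, A / ρ ^ 2 * τ * x ^ k = τ * (A / (ρ ^ 2 - q)) := by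
    rw [tsum_mul_left, tsum_geometric_of_lt_one hx0 hx1, hx]
    have h5 : ρ ^ 2 - q ≠ 0 := by linarith
    have h6 : 1 - q / ρ ^ 2 = (ρ ^ 2 - q) / ρ ^ 2 := by
      rw [sub_div, div_self hρ2.ne']
    rw [h6, inv_div]
    field_simp
  rw [hg] at hmain
  have hfin : ∀ n, ∑' k, f n k
      = (∑ k ∈ Finset.range (n / 2), A * q ^ k * T (n - 2 * (k + 1))) / (n * ρ ^ n) := by
    intro n
    rw [tsum_eq_sum (s := Finset.range (n / 2)), Finset.sum_div]
    · refine Finset.sum_congr rfl fun k hk => ?_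
      simp only [hf]
      rw [if_pos (Finset.mem_range.1 hk)]
    · intro k hk
      simp only [hf]
      rw [if_neg (fun h => hk (Finset.mem_range.2 h))]
  have hUn : ∀ n, U n / (n * ρ ^ n) = r n + ∑' k, f n k := by
    intro n
    rw [hfin, hU, add_div]
  have e : τ * (1 + A / (ρ ^ 2 - q)) = τ + τ * (A / (ρ ^ 2 - q)) := by ring
  rw [e]
  exact (hT.add hmain).congr fun n => (hUn n).symm

end Pool.Agent.Helper35.AP
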