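import Pool.Agent.Helper86.AP.Goals

/-!
# Project AP (MP_bec853_al), packet PA
-/

set_option autoImplicit false

namespace Pool.Agent.Helper35.AP

open FreeGroup Pool.Agent.Helper35.PP Pool.Agent.Helper35.PX Pool.Agent.Helper86.AP

theorem get_mid {β : Type} (p u x : List β) (k : ℕ) (hk : k < u.length) :
    (p ++ u ++ x)[p.length + k]? = u[k]? := by
  rw [List.append_assoc, List.getElem?_append_right (Nat.le_add_right _ _),
    Nat.add_sub_cancel_left, List.getElem?_append_left hk]

theorem tPA : Pool.Agent.Helper86.AP.S_PA := by
  intro β M a p1 p2 u x1 x2 l hF h1 h2 hx hlt hl1 hl2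
  have hlen1 : a.length = p1.length + u.length + x1.length := by
    rw [h1, List.length_append, List.length_append]
  have hlen2 : a.length = p2.length + u.length + x2.length := by
    rw [h2, List.length_append, List.length_append]
  refine ⟨p1.length + u.length, p2.length - p1.length, hl2, by omega, by omega, ?_, ?_⟩
  · intro h hh1 hh2
    obtain ⟨k, rfl⟩ : ∃ k, h = p1.length + k := ⟨h - p1.length, by omega⟩
    have hk : k < u.length := by omega
    refine ⟨by omega, ?_⟩
    have e1 : a[p1.length + k]? = u[k]? := by
      rw [h1]
      exact get_mid p1 u x1 k hk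
    have e2 : a[p2.length + k]? = u[k]? := by
      rw [h2]
      exact get_mid p2 u x2 k hk
    have e3 : p1.length + k + (p2.length - p1.length) = p2.length + k := by omega
    rw [e3, e1, e2]
  · have e1 : a.drop (p1.length + u.length) = x1 := by
      rw [h1, ← List.length_append]
      exact List.drop_left
    rw [e1]
    have hnil : ([] : List β) ∈ M := hF [] [] x1 hx
    exact ⟨x1, hx, [], ⟨[], hnil, [], rfl, rfl⟩, (List.append_nil x1).symm⟩

end Pool.Agent.Helper35.AP
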